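import Pool.Agent.Helper99.MKV.GoalsC

/-!
# Packet MKV BDQ: bounds for the quadratic forms of the charges
-/

open Finset hiding box

namespace Pool.Agent.Helper32.MKV

open Pool.Agent.Helper99.MKV Pool.Agent.Helper99.EXC Pool.Agent.Helper99.ERW

lemma nmnn (x : Site 2) : 0 ≤ nm x := le_max_of_le_left (abs_nonneg _)

lemma nmneg (x : Site 2) : nm (-x) = nm x := by
  simp [nm]

lemma nmsub (x y : Site 2) : nm (x - y) = nm (y - x) := by
  rw [← nmneg]
  congr 1
  abel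

lemma vecF (l : Fin 2) : vec ((l, false) : Dir 2) = -vec ((l, true) : Dir 2) := by
  unfold vec
  simp [← Pi.single_neg]

lemma sd_even {φ : Site 2 → ℝ} (h : ∀ x, φ (-x) = φ x) (l : Fin 2) (x : Site 2) :
    secondDiff φ l (-x) = secondDiff φ l x := by
  unfold secondDiff
  rw [vecF]
  have e1 : φ (-x + vec (l, true)) = φ (x + -vec (l, true)) := by
    rw [← h]; congr 1; abel
  have e2 : φ (-x + -vec (l, true)) = φ (x + vec (l, true)) := by
    rw [← h]; congr 1; abel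
  rw [e1, e2, h]
  ring

lemma Dfev {φ : Site 2 → ℝ} (h : ∀ x, φ (-x) = φ x) (x : Site 2) : Df φ (-x) = Df φ x := by
  unfold Df
  rw [sd_even h, sd_even h]

/-- symmetrisation -/
lemma sym_eq (D : Finset (Site 2)) (v s H : Site 2 → ℝ) (hH : ∀ u, H (-u) = H u) :
    ∑ y ∈ D, ∑ z ∈ D, (v y + v z) / 2 * H (y - z) * s y * s z =
      ∑ z ∈ D, ∑ y ∈ D, v z * s z * H (y - z) * s y := by
  have hH' : ∀ y z, H (y - z) = H (z - y) := by
    intro y z
    rw [← hH]
    congr 1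
    abel
  have e1 : ∑ y ∈ D, ∑ z ∈ D, (v y + v z) / 2 * H (y - z) * s y * s z =
      (∑ y ∈ D, ∑ z ∈ D, v y * s y * H (z - y) * s z) / 2 +
        (∑ y ∈ D, ∑ z ∈ D, v z * s z * H (y - z) * s y) / 2 := by
    rw [← add_div, ← Finset.sum_add_distrib, Finset.sum_div]
    refine Finset.sum_congr rfl fun y _ => ?_
    rw [← Finset.sum_add_distrib, Finset.sum_div]
    refine Finset.sum_congr rfl fun z _ => ?_
    rw [hH' z y]
    ring
  have e2 : ∑ y ∈ D, ∑ z ∈ D, v z * s z * H (y - z) * s y =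
      ∑ z ∈ D, ∑ y ∈ D, v z * s z * H (y - z) * s y := Finset.sum_comm
  rw [e1, e2]
  ring

lemma sqrt_bd {D : Finset (Site 2)} {f : Site 2 → ℝ} {c : ℝ} (hc : 0 ≤ c)
    (h : ∀ z ∈ D, |f z| ≤ c) : Real.sqrt (∑ z ∈ D, f z ^ 2) ≤ c * Real.sqrt D.card := by
  have h1 : ∑ z ∈ D, f z ^ 2 ≤ c ^ 2 * D.card := by
    have h2 : ∑ z ∈ D, f z ^ 2 ≤ ∑ z ∈ D, c ^ 2 := Finset.sum_le_sum fun z hz => by
      rw [← sq_abs]
      exact pow_le_pow_left₀ (abs_nonneg _) (h z hz) 2
    rw [Finset.sum_const, nsmul_eq_mul] at h2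
    linarith
  calc Real.sqrt (∑ z ∈ D, f z ^ 2) ≤ Real.sqrt (c ^ 2 * D.card) := Real.sqrt_le_sqrt h1
    _ = c * Real.sqrt D.card := by
      rw [Real.sqrt_mul (by positivity), Real.sqrt_sq hc]

lemma k3 (k : ℕ) : ((k : ℝ) + 3) / 4 ^ k ≤ 3 / 2 ^ k := by
  have h : (k : ℝ) + 3 ≤ 3 * 2 ^ k := by
    induction k with
    | zero => norm_num
    | succ k ih =>
      rw [pow_succ]
      push_cast
      have : (1 : ℝ) ≤ 2 ^ k := one_le_pow₀ (by norm_num)
      linarith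
  have h4 : (4 : ℝ) ^ k = 2 ^ k * 2 ^ k := by
    rw [← mul_pow]
    norm_num
  rw [h4, div_le_div_iff₀ (by positivity) (by positivity)]
  have : (0 : ℝ) < 2 ^ k := by positivity
  nlinarith

theorem BDQ (hSMS : SMS_stmt) (hINC : INC_stmt) : BDQ_stmt := by
  intro κ C b B hκ hC hb hB
  obtain ⟨C1, hC1, hcard, hs2, -⟩ := hSMS b hb
  have hC0 : 0 ≤ C := by linarith
  have hB0 : 0 ≤ B := by linarith
  have hC10 : 0 ≤ C1 := by linarith
  refine ⟨12 * B ^ 2 * C * C1, by positivity, ?_⟩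
  intro E ι _ U a S φ Φ k1 hD hX j k hj hjk A v hv t
  obtain ⟨hA, hv0, hvb⟩ := hv
  have hHb : ∀ u, |Hj φ (Φ j) u| ≤ 2 * C / (1 + nm u) ^ 2 := by
    intro u
    have h1 := hX.hbd u
    have h2 := hX.dphi2 j hj u
    unfold Hj
    calc |Df φ u - Df (Φ j) u| ≤ |Df φ u| + |Df (Φ j) u| := abs_sub _ _
      _ ≤ C / (1 + nm u) ^ 2 + C / (1 + nm u) ^ 2 := add_le_add h1 h2
      _ = 2 * C / (1 + nm u) ^ 2 := by ring
  have hHe : ∀ u, Hj φ (Φ j) (-u) = Hj φ (Φ j) u := by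
    intro u
    unfold Hj
    rw [Dfev hX.even, Dfev (hX.evk j)]
  have hSb : ∀ z, |S z (t.2 z)| ≤ B := fun z => hD.bd z _
  have hA4 : 0 ≤ A / 4 ^ k := by positivity
  constructor
  · -- the form
    have e1 : QQ (Hj φ (Φ j)) S (Bx b (k + 1)) v t =
        1 / 2 * ((∑ z ∈ Bx b (k + 1), ∑ y ∈ Bx b (k + 1),
          (v z * S z (t.2 z)) * Df φ (y - z) * S y (t.2 y)) -
        ∑ z ∈ Bx b (k + 1), ∑ y ∈ Bx b (k + 1),
          (v z * S z (t.2 z)) * Df (Φ j) (y - z) * S y (t.2 y)) := by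
      unfold QQ BL
      rw [sym_eq (Bx b (k + 1)) v (fun z => S z (t.2 z)) (Hj φ (Φ j)) hHe,
        ← Finset.sum_sub_distrib]
      congr 1
      refine Finset.sum_congr rfl fun z _ => ?_
      rw [← Finset.sum_sub_distrib]
      refine Finset.sum_congr rfl fun y _ => ?_
      unfold Hj
      ring
    have f1 := hX.form (Bx b (k + 1)) (fun z => v z * S z (t.2 z)) (fun y => S y (t.2 y))
    have f2 := hX.formk j hj (Bx b (k + 1)) (fun z => v z * S z (t.2 z)) (fun y => S y (t.2 y))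
    have g1 : Real.sqrt (∑ z ∈ Bx b (k + 1), (v z * S z (t.2 z)) ^ 2) ≤
        (A / 4 ^ k * B) * Real.sqrt (Bx b (k + 1)).card := by
      refine sqrt_bd (by positivity) fun z _ => ?_
      rw [abs_mul]
      exact mul_le_mul (hvb z) (hSb z) (abs_nonneg _) hA4
    have g2 : Real.sqrt (∑ y ∈ Bx b (k + 1), (S y (t.2 y)) ^ 2) ≤
        B * Real.sqrt (Bx b (k + 1)).card := sqrt_bd hB0 fun z _ => hSb z
    have g3 : C * Real.sqrt (∑ z ∈ Bx b (k + 1), (v z * S z (t.2 z)) ^ 2) *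
        Real.sqrt (∑ y ∈ Bx b (k + 1), (S y (t.2 y)) ^ 2) ≤ 4 * C * C1 * B ^ 2 * A := by
      have h1 := hcard (k + 1)
      calc C * Real.sqrt (∑ z ∈ Bx b (k + 1), (v z * S z (t.2 z)) ^ 2) *
        Real.sqrt (∑ y ∈ Bx b (k + 1), (S y (t.2 y)) ^ 2) ≤
          C * ((A / 4 ^ k * B) * Real.sqrt (Bx b (k + 1)).card) *
            (B * Real.sqrt (Bx b (k + 1)).card) :=
          mul_le_mul (mul_le_mul_of_nonneg_left g1 hC0) g2 (Real.sqrt_nonneg _) (by positivity)
        _ = C * (A / 4 ^ k) * B ^ 2 *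
            (Real.sqrt (Bx b (k + 1)).card * Real.sqrt (Bx b (k + 1)).card) := by ring
        _ = C * (A / 4 ^ k) * B ^ 2 * (Bx b (k + 1)).card := by
          rw [Real.mul_self_sqrt (Nat.cast_nonneg _)]
        _ ≤ C * (A / 4 ^ k) * B ^ 2 * (C1 * 4 ^ (k + 1)) :=
          mul_le_mul_of_nonneg_left h1 (by positivity)
        _ = 4 * C * C1 * B ^ 2 * A := by
          rw [pow_succ]
          have h4 : (4 : ℝ) ^ k ≠ 0 := by positivity
          field_simp
          rw [pow_succ, mul_assoc]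
    rw [e1, abs_mul, abs_of_pos (by norm_num : (0 : ℝ) < 1 / 2)]
    have g4 := abs_sub (∑ z ∈ Bx b (k + 1), ∑ y ∈ Bx b (k + 1),
          (v z * S z (t.2 z)) * Df φ (y - z) * S y (t.2 y))
        (∑ z ∈ Bx b (k + 1), ∑ y ∈ Bx b (k + 1),
          (v z * S z (t.2 z)) * Df (Φ j) (y - z) * S y (t.2 y))
    have g5 : (0 : ℝ) ≤ C * C1 * B ^ 2 * A := by positivity
    linarith
  · intro i e
    have h3 := (hINC E ι U t i e).2.2 S S (Bx b (k + 1)) (Bx b (k + 1))
      (fun y z => (v y + v z) / 2 * Hj φ (Φ j) (y - z))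
    have e1 : QQ (Hj φ (Φ j)) S (Bx b (k + 1)) v (nxt U t i e) -
        QQ (Hj φ (Φ j)) S (Bx b (k + 1)) v t = 1 / 2 *
        (BL S S (Bx b (k + 1)) (Bx b (k + 1)) (fun y z => (v y + v z) / 2 * Hj φ (Φ j) (y - z))
          (nxt U t i e) -
        BL S S (Bx b (k + 1)) (Bx b (k + 1)) (fun y z => (v y + v z) / 2 * Hj φ (Φ j) (y - z))
          t) := by
      unfold QQ
      ring
    rw [e1, h3]
    by_cases hx : t.1 ∈ Bx b (k + 1)
    · have hGk : Gk b k t.1 = 1 / 2 ^ k := by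
        unfold Gk
        rw [if_pos hx]
      rw [if_pos hx, if_pos hx, if_pos ⟨hx, hx⟩, hGk]
      have hα : |S t.1 (U.nx t.1 (t.2 t.1) i) - S t.1 (t.2 t.1)| ≤ 2 * B := by
        have h4 := abs_sub (S t.1 (U.nx t.1 (t.2 t.1) i)) (S t.1 (t.2 t.1))
        have h5 := hD.bd t.1 (U.nx t.1 (t.2 t.1) i)
        have h6 := hD.bd t.1 (t.2 t.1)
        linarith
      generalize S t.1 (U.nx t.1 (t.2 t.1) i) - S t.1 (t.2 t.1) = α at hα
      have hM : ∀ y z, |(v y + v z) / 2 * Hj φ (Φ j) (y - z)| ≤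
          A / 4 ^ k * (2 * C / (1 + nm (y - z)) ^ 2) := by
        intro y z
        rw [abs_mul]
        refine mul_le_mul ?_ (hHb _) (abs_nonneg _) hA4
        rw [abs_div, abs_of_pos (by norm_num : (0 : ℝ) < 2), div_le_iff₀ (by norm_num)]
        have h4 := abs_add_le (v y) (v z)
        have h5 := hvb y
        have h6 := hvb z
        linarith
      have hsum : ∀ M : Site 2 → ℝ, (∀ z, |M z| ≤ A / 4 ^ k * (2 * C / (1 + nm (z - t.1)) ^ 2)) →
          |∑ z ∈ Bx b (k + 1), M z * S z (t.2 z)| ≤ A / 4 ^ k * (2 * C) * B * (C1 * (k + 2)) := by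
        intro M hM
        calc |∑ z ∈ Bx b (k + 1), M z * S z (t.2 z)| ≤
            ∑ z ∈ Bx b (k + 1), |M z * S z (t.2 z)| := Finset.abs_sum_le_sum_abs _ _
          _ ≤ ∑ z ∈ Bx b (k + 1), A / 4 ^ k * (2 * C) * B * (1 / (1 + nm (z - t.1)) ^ 2) := by
            refine Finset.sum_le_sum fun z _ => ?_
            rw [abs_mul]
            calc |M z| * |S z (t.2 z)| ≤ (A / 4 ^ k * (2 * C / (1 + nm (z - t.1)) ^ 2)) * B :=
                mul_le_mul (hM z) (hSb z) (abs_nonneg _) (by positivity)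
              _ = _ := by ring
          _ = A / 4 ^ k * (2 * C) * B * ∑ z ∈ Bx b (k + 1), 1 / (1 + nm (z - t.1)) ^ 2 := by
            rw [Finset.mul_sum]
          _ ≤ A / 4 ^ k * (2 * C) * B * (C1 * (k + 2)) := by
            refine mul_le_mul_of_nonneg_left ?_ (by positivity)
            have h4 := hs2 (k + 1) t.1
            push_cast at h4
            linarith
      have s1 := hsum (fun z => (v t.1 + v z) / 2 * Hj φ (Φ j) (t.1 - z)) (fun z => by
        rw [nmsub]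
        exact hM t.1 z)
      have s2 := hsum (fun y => (v y + v t.1) / 2 * Hj φ (Φ j) (y - t.1)) (fun z => hM z t.1)
      have s3 : |(v t.1 + v t.1) / 2 * Hj φ (Φ j) (t.1 - t.1)| ≤ A / 4 ^ k * (2 * C) := by
        refine (hM t.1 t.1).trans ?_
        refine mul_le_mul_of_nonneg_left ?_ hA4
        rw [div_le_iff₀ (by have := nmnn (t.1 - t.1); positivity)]
        have h4 : (1 : ℝ) ≤ (1 + nm (t.1 - t.1)) ^ 2 :=
          one_le_pow₀ (by linarith [nmnn (t.1 - t.1)])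
        nlinarith
      have u1 : |α * ∑ z ∈ Bx b (k + 1), (v t.1 + v z) / 2 * Hj φ (Φ j) (t.1 - z) *
          S z (t.2 z)| ≤ 2 * B * (A / 4 ^ k * (2 * C) * B * (C1 * (k + 2))) := by
        rw [abs_mul]
        exact mul_le_mul hα s1 (abs_nonneg _) (by positivity)
      have u2 : |α * ∑ y ∈ Bx b (k + 1), (v y + v t.1) / 2 * Hj φ (Φ j) (y - t.1) *
          S y (t.2 y)| ≤ 2 * B * (A / 4 ^ k * (2 * C) * B * (C1 * (k + 2))) := by
        rw [abs_mul]
        exact mul_le_mul hα s2 (abs_nonneg _) (by positivity)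
      have u3 : |α * α * ((v t.1 + v t.1) / 2 * Hj φ (Φ j) (t.1 - t.1))| ≤
          2 * B * (2 * B) * (A / 4 ^ k * (2 * C)) := by
        rw [abs_mul, abs_mul]
        exact mul_le_mul (mul_le_mul hα hα (abs_nonneg _) (by positivity)) s3 (abs_nonneg _)
          (by positivity)
      have u4 : 2 * B * (2 * B) * (A / 4 ^ k * (2 * C)) ≤
          2 * B * (2 * B) * (A / 4 ^ k * (2 * C)) * C1 :=
        le_mul_of_one_le_right (by positivity) hC1
      have u5 := k3 k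
      have u6 : 4 * B ^ 2 * C * C1 * A * (((k : ℝ) + 3) / 4 ^ k) ≤
          4 * B ^ 2 * C * C1 * A * (3 / 2 ^ k) := mul_le_mul_of_nonneg_left u5 (by positivity)
      rw [abs_mul, abs_of_pos (by norm_num : (0 : ℝ) < 1 / 2)]
      refine (mul_le_mul_of_nonneg_left ((abs_add_le _ _).trans
        (add_le_add ((abs_add_le _ _).trans (add_le_add u1 u2)) u3)) (by norm_num)).trans ?_
      calc 1 / 2 * (2 * B * (A / 4 ^ k * (2 * C) * B * (C1 * (k + 2))) +
            2 * B * (A / 4 ^ k * (2 * C) * B * (C1 * (k + 2))) +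
            2 * B * (2 * B) * (A / 4 ^ k * (2 * C))) ≤
          1 / 2 * (2 * B * (A / 4 ^ k * (2 * C) * B * (C1 * (k + 2))) +
            2 * B * (A / 4 ^ k * (2 * C) * B * (C1 * (k + 2))) +
            2 * B * (2 * B) * (A / 4 ^ k * (2 * C)) * C1) := by linarith
        _ = 4 * B ^ 2 * C * C1 * A * (((k : ℝ) + 3) / 4 ^ k) := by ring
        _ ≤ 4 * B ^ 2 * C * C1 * A * (3 / 2 ^ k) := u6
        _ = 12 * B ^ 2 * C * C1 * A * (1 / 2 ^ k) := by ring
    · rw [if_neg hx, if_neg hx, if_neg (fun h => hx h.1)]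
      have h4 : 0 ≤ Gk b k t.1 := by
        unfold Gk
        have := nmnn t.1
        split_ifs <;> positivity
      simp only [add_zero, mul_zero, abs_zero]
      positivity

end Pool.Agent.Helper32.MKV
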